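import Mathlib

/-!
# Steiner loops: definitions
-/

namespace Q16.Steiner

universe u

/-- `(X, mul, e)` is a Steiner loop: a loop (two-sided identity `e`, unique left and right
division) satisfying `x y = y x` and `x (x y) = y`. -/
structure IsSteinerLoop {X : Type u} (mul : X → X → X) (e : X) : Prop where
  e_mul : ∀ x, mul e x = x
  mul_e : ∀ x, mul x e = x
  left_div : ∀ a b, ∃! x, mul a x = b
  right_div : ∀ a b, ∃! y, mul y a = b
  comm : ∀ x y, mul x y = mul y x
  steiner : ∀ x y, mul x (mul x y) = y

/-- `S` is (the underlying set of) a subloop of the Steiner loop `(X, mul, e)`: it contains `e` and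
is closed under multiplication. -/
def IsSubloop {X : Type u} (mul : X → X → X) (e : X) (S : Set X) : Prop :=
  e ∈ S ∧ ∀ a ∈ S, ∀ b ∈ S, mul a b ∈ S

/-- The subloop generated by `x, y, z`: the intersection of all subloops containing them. -/
def generated {X : Type u} (mul : X → X → X) (e : X) (x y z : X) : Set X :=
  {a | ∀ S : Set X, IsSubloop mul e S → x ∈ S → y ∈ S → z ∈ S → a ∈ S}

/-- Associativity propagates: if `x (y z) = (x y) z` then `a (b c) = (a b) c` for all `a, b, c` in
the subloop generated by `x, y, z`. -/
def AssocPropagates {X : Type u} (mul : X → X → X) (e : X) : Prop :=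
  ∀ x y z, mul x (mul y z) = mul (mul x y) z →
    ∀ a ∈ generated mul e x y z, ∀ b ∈ generated mul e x y z, ∀ c ∈ generated mul e x y z,
      mul a (mul b c) = mul (mul a b) c

end Q16.Steiner
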