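import Pool.Agent.Q16.Steiner.Defs

/-!
# The free Steiner loop and its anti-Pasch property
-/

namespace Q16.Steiner

universe u

/-- Binary trees with leaves in `A`. -/
inductive Tree (A : Type u) : Type u
  | gen : A → Tree A
  | node : Tree A → Tree A → Tree A

namespace Tree

variable {A : Type u}

def size : Tree A → ℕ
  | gen _ => 0
  | node a b => size a + size b + 1

open Classical in
/-- Unordered node. -/
noncomputable def nd (a b : Tree A) : Tree A :=
  if WellOrderingRel a b then node a b else node b a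

theorem nd_comm (a b : Tree A) : nd a b = nd b a := by
  unfold nd
  rcases trichotomous_of (α := Tree A) WellOrderingRel a b with h | h | h
  · rw [if_pos h, if_neg (asymm h)]
  · subst h; rfl
  · rw [if_pos h, if_neg (asymm h)]

theorem nd_eq (a b : Tree A) : nd a b = node a b ∨ nd a b = node b a := by
  unfold nd
  split_ifs
  · exact Or.inl rfl
  · exact Or.inr rfl

theorem nd_inj {a b c d : Tree A} (h : nd a b = nd c d) : (a = c ∧ b = d) ∨ (a = d ∧ b = c) := by
  rcases nd_eq a b with h1 | h1 <;> rcases nd_eq c d with h2 | h2 <;> rw [h1, h2] at h <;>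
    injection h with h3 h4 <;> tauto

theorem size_nd (a b : Tree A) : size (nd a b) = size a + size b + 1 := by
  rcases nd_eq a b with h1 | h1 <;> rw [h1] <;> simp [size] <;> omega

/-- Reduced trees. -/
def Red : Tree A → Prop
  | gen _ => True
  | node a b => Red a ∧ Red b ∧ a ≠ b ∧ node a b = nd a b ∧ (∀ c, a ≠ nd b c) ∧ (∀ c, b ≠ nd a c)

theorem red_nd {a b : Tree A} : Red (nd a b) ↔
    Red a ∧ Red b ∧ a ≠ b ∧ (∀ c, a ≠ nd b c) ∧ (∀ c, b ≠ nd a c) := by
  rcases nd_eq a b with h1 | h1
  · rw [h1]
    simp only [Red]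
    constructor
    · rintro ⟨h2, h3, h4, _, h5, h6⟩
      exact ⟨h2, h3, h4, h5, h6⟩
    · rintro ⟨h2, h3, h4, h5, h6⟩
      exact ⟨h2, h3, h4, h1.symm, h5, h6⟩
  · rw [h1]
    simp only [Red]
    constructor
    · rintro ⟨h2, h3, h4, _, h5, h6⟩
      exact ⟨h3, h2, h4.symm, h6, h5⟩
    · rintro ⟨h2, h3, h4, h5, h6⟩
      exact ⟨h3, h2, h4.symm, by rw [nd_comm]; exact h1.symm, h6, h5⟩

/-- Collinearity: one of the three is the node of the other two. -/
def Line (a b c : Tree A) : Prop := a = nd b c ∨ b = nd a c ∨ c = nd a b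

theorem Line.swap12 {a b c : Tree A} (h : Line a b c) : Line b a c := by
  rcases h with h | h | h
  · exact Or.inr (Or.inl h)
  · exact Or.inl h
  · exact Or.inr (Or.inr (h.trans (nd_comm _ _)))

theorem Line.swap23 {a b c : Tree A} (h : Line a b c) : Line a c b := by
  rcases h with h | h | h
  · exact Or.inl (h.trans (nd_comm _ _))
  · exact Or.inr (Or.inr h)
  · exact Or.inr (Or.inl h)

theorem line_exists {a b : Tree A} (ha : Red a) (hb : Red b) (hab : a ≠ b) :
    ∃ c, Red c ∧ Line a b c := by
  by_cases h1 : ∃ c, a = nd b c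
  · obtain ⟨c, hc⟩ := h1
    refine ⟨c, ?_, Or.inl hc⟩
    rw [hc, red_nd] at ha
    exact ha.2.1
  by_cases h2 : ∃ c, b = nd a c
  · obtain ⟨c, hc⟩ := h2
    refine ⟨c, ?_, Or.inr (Or.inl hc)⟩
    rw [hc, red_nd] at hb
    exact hb.2.1
  push Not at h1 h2
  exact ⟨nd a b, red_nd.2 ⟨ha, hb, hab, h1, h2⟩, Or.inr (Or.inr rfl)⟩

theorem line_unique {a b c c' : Tree A} (hc : Red c) (hc' : Red c')
    (h : Line a b c) (h' : Line a b c') : c = c' := by
  rcases h with h | h | h <;> rcases h' with h' | h' | h'
  · rcases nd_inj (h.symm.trans h') with ⟨_, h2⟩ | ⟨h1, h2⟩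
    · exact h2
    · rw [h2, ← h1]
  · exfalso
    have e1 := congrArg size h
    have e2 := congrArg size h'
    rw [size_nd] at e1 e2
    omega
  · rw [h'] at hc'
    exact absurd h ((red_nd.1 hc').2.2.2.1 c)
  · exfalso
    have e1 := congrArg size h
    have e2 := congrArg size h'
    rw [size_nd] at e1 e2
    omega
  · rcases nd_inj (h.symm.trans h') with ⟨_, h2⟩ | ⟨h1, h2⟩
    · exact h2
    · rw [h2, ← h1]
  · rw [h'] at hc'
    exact absurd h ((red_nd.1 hc').2.2.2.2 c)
  · rw [h] at hc
    exact absurd h' ((red_nd.1 hc).2.2.2.1 c')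
  · rw [h] at hc
    exact absurd h' ((red_nd.1 hc).2.2.2.2 c')
  · rw [h, h']

theorem line_ne {a b c : Tree A} (ha : Red a) (hb : Red b) (hc : Red c) (h : Line a b c) :
    a ≠ b ∧ a ≠ c ∧ b ≠ c := by
  have key : ∀ {p q r : Tree A}, Red p → p = nd q r → p ≠ q ∧ p ≠ r ∧ q ≠ r := by
    intro p q r hp h
    have e := congrArg size h
    rw [size_nd] at e
    refine ⟨?_, ?_, ?_⟩
    · rintro rfl; omega
    · rintro rfl; omega
    · rw [h, red_nd] at hp; exact hp.2.2.1
  rcases h with h | h | h
  · exact key ha h
  · obtain ⟨h1, h2, h3⟩ := key hb h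
    exact ⟨h1.symm, h3, h2⟩
  · obtain ⟨h1, h2, h3⟩ := key hc h
    exact ⟨h3, h1.symm, h2.symm⟩

theorem not_two {p a b c d : Tree A} (hac : a ≠ c) (had : a ≠ d) (h : p = nd a b)
    (h' : p = nd c d) : False := by
  rcases nd_inj (h.symm.trans h') with ⟨h1, _⟩ | ⟨h1, _⟩
  · exact hac h1
  · exact had h1

/-- No Pasch configuration. -/
theorem no_pasch {x y z u v w : Tree A} (l1 : Line y z u) (l2 : Line x y v) (l3 : Line x u w)
    (l4 : Line v z w) (hxz : x ≠ z) (hxu : x ≠ u) (huv : u ≠ v) (hvz : v ≠ z)
    (hyu : y ≠ u) (hyw : y ≠ w) (hvy : v ≠ y) (hvx : v ≠ x) (hyz : y ≠ z) (hxy : x ≠ y)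
    (hwz : w ≠ z) (hwx : w ≠ x) (huz : u ≠ z) (hwu : w ≠ u) (hwv : w ≠ v) : False := by
  have s : ∀ {p q r : Tree A}, p = nd q r → size p = size q + size r + 1 := by
    intro p q r h
    rw [h, size_nd]
  rcases l1 with l1 | l1 | l1 <;> rcases l2 with l2 | l2 | l2 <;> rcases l3 with l3 | l3 | l3 <;>
    rcases l4 with l4 | l4 | l4 <;>
    first
      | (have s1 := s l1; have s2 := s l2; have s3 := s l3; have s4 := s l4; omega)
      | exact not_two (by assumption) (by assumption) l2 l3
      | exact not_two (by assumption) (by assumption) l1 l2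
      | exact not_two (by assumption) (by assumption) l1 l4
      | exact not_two (by assumption) (by assumption) l1 l3
      | exact not_two (by assumption) (by assumption) l2 l4
      | exact not_two (by assumption) (by assumption) l3 l4
      | exact not_two (Ne.symm (by assumption)) (by assumption) l2 l3
      | exact not_two (Ne.symm (by assumption)) (by assumption) l1 l2
      | exact not_two (Ne.symm (by assumption)) (by assumption) l1 l4
      | exact not_two (Ne.symm (by assumption)) (by assumption) l1 l3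
      | exact not_two (Ne.symm (by assumption)) (by assumption) l2 l4
      | exact not_two (Ne.symm (by assumption)) (by assumption) l3 l4
      | exact not_two (by assumption) (Ne.symm (by assumption)) l2 l3
      | exact not_two (by assumption) (Ne.symm (by assumption)) l1 l2
      | exact not_two (by assumption) (Ne.symm (by assumption)) l1 l4
      | exact not_two (by assumption) (Ne.symm (by assumption)) l1 l3
      | exact not_two (by assumption) (Ne.symm (by assumption)) l2 l4
      | exact not_two (by assumption) (Ne.symm (by assumption)) l3 l4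
      | exact not_two (Ne.symm (by assumption)) (Ne.symm (by assumption)) l2 l3
      | exact not_two (Ne.symm (by assumption)) (Ne.symm (by assumption)) l1 l2
      | exact not_two (Ne.symm (by assumption)) (Ne.symm (by assumption)) l1 l4
      | exact not_two (Ne.symm (by assumption)) (Ne.symm (by assumption)) l1 l3
      | exact not_two (Ne.symm (by assumption)) (Ne.symm (by assumption)) l2 l4
      | exact not_two (Ne.symm (by assumption)) (Ne.symm (by assumption)) l3 l4

end Tree

end Q16.Steiner
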