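import Pool.Agent.Q16.Steiner.Free

/-!
# The free Steiner loop as a loop, its homomorphisms, and propagation of associativity
-/

universe u

open Q16.Steiner.Tree

namespace Q16.Steiner

/-- Reduced trees. -/
abbrev R (A : Type u) : Type u := {t : Tree A // Red t}

/-- The free Steiner loop on `A`; `none` is the identity. -/
abbrev Free (A : Type u) : Type u := Option (R A)

variable {A : Type u}

theorem exists_third {a b : R A} (h : a ≠ b) : ∃ c : R A, Line a.1 b.1 c.1 := by
  obtain ⟨c, hc, hl⟩ := line_exists a.2 b.2 (fun e => h (Subtype.ext e))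
  exact ⟨⟨c, hc⟩, hl⟩

open Classical in
/-- The third point of the line through `a` and `b`. -/
noncomputable def third (a b : R A) : Option (R A) :=
  if h : a = b then none else some (exists_third h).choose

theorem third_self (a : R A) : third a a = none := by
  unfold third
  rw [dif_pos rfl]

theorem third_eq_iff {a b c : R A} : third a b = some c ↔ Line a.1 b.1 c.1 := by
  by_cases h : a = b
  · subst h
    rw [third_self]
    constructor
    · intro h; cases h
    · intro h
      exact absurd rfl (line_ne a.2 a.2 c.2 h).1
  · unfold third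
    rw [dif_neg h]
    have hs := (exists_third h).choose_spec
    constructor
    · intro h'
      injection h' with h'
      rw [h'] at hs
      exact hs
    · intro h'
      congr 1
      exact Subtype.ext (line_unique (exists_third h).choose.2 c.2 hs h')

theorem third_eq_none {a b : R A} (h : third a b = none) : a = b := by
  by_contra hn
  unfold third at h
  rw [dif_neg hn] at h
  cases h

/-- Multiplication. -/
noncomputable def fmul : Free A → Free A → Free A
  | none, y => y
  | some a, none => some a
  | some a, some b => third a b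

theorem fmul_none (x : Free A) : fmul x none = x := by cases x <;> rfl
theorem none_fmul (x : Free A) : fmul none x = x := rfl

theorem fmul_comm (x y : Free A) : fmul x y = fmul y x := by
  cases x with
  | none => rw [fmul_none]; rfl
  | some a =>
    cases y with
    | none => rfl
    | some b =>
      change third a b = third b a
      cases h : third a b with
      | none =>
        have := third_eq_none h
        subst this
        exact (third_self a).symm
      | some c =>
        rw [third_eq_iff] at h
        exact (third_eq_iff.2 h.swap12).symm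

theorem fmul_fmul (x y : Free A) : fmul x (fmul x y) = y := by
  cases x with
  | none => rfl
  | some a =>
    cases y with
    | none => exact third_self a
    | some b =>
      change fmul (some a) (third a b) = some b
      cases h : third a b with
      | none =>
        have := third_eq_none h
        subst this
        rfl
      | some c =>
        rw [third_eq_iff] at h
        change third a c = some b
        exact third_eq_iff.2 h.swap23

theorem isSteinerLoop_of {X : Type u} (mul : X → X → X) (e : X) (h1 : ∀ x, mul e x = x)
    (hc : ∀ x y, mul x y = mul y x) (hs : ∀ x y, mul x (mul x y) = y) : IsSteinerLoop mul e where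
  e_mul := h1
  mul_e x := by rw [hc, h1]
  left_div a b := ⟨mul a b, hs a b, fun y hy => by
    have hy' : mul a y = b := hy
    rw [← hy', hs]⟩
  right_div a b := ⟨mul a b, by
    change mul (mul a b) a = b
    rw [hc, hs], fun y hy => by
    have hy' : mul y a = b := hy
    rw [← hy', hc y a, hs]⟩
  comm := hc
  steiner := hs

theorem free_isSteinerLoop : IsSteinerLoop (fmul : Free A → Free A → Free A) none :=
  isSteinerLoop_of _ _ none_fmul fmul_comm fmul_fmul

/-! ### Associativity in Klein subloops -/

section Klein

variable {X : Type u} {mul : X → X → X} {e : X} (L : IsSteinerLoop mul e)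

include L in
theorem self_mul (x : X) : mul x x = e := by
  have := L.steiner x e
  rwa [L.mul_e] at this

/-- The set `{e, p, q, pq}`. -/
def klein (mul : X → X → X) (e p q : X) : Set X := {a | a = e ∨ a = p ∨ a = q ∨ a = mul p q}

include L in
theorem klein_rules (p q : X) : mul p (mul p q) = q ∧ mul q (mul p q) = p ∧ mul (mul p q) p = q ∧
    mul (mul p q) q = p ∧ mul q p = mul p q := by
  refine ⟨L.steiner p q, ?_, ?_, ?_, L.comm q p⟩
  · rw [L.comm p q, L.steiner]
  · rw [L.comm (mul p q) p, L.steiner]
  · rw [L.comm (mul p q) q, L.comm p q, L.steiner]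

include L in
theorem klein_subloop (p q : X) : IsSubloop mul e (klein mul e p q) := by
  obtain ⟨h1, h2, h3, h4, h5⟩ := klein_rules L p q
  refine ⟨Or.inl rfl, ?_⟩
  intro a ha b hb
  rcases ha with rfl | rfl | rfl | rfl <;> rcases hb with rfl | rfl | rfl | rfl <;>
    simp [klein, L.e_mul, L.mul_e, self_mul L, h1, h2, h3, h4, h5]

include L in
theorem klein_assoc (p q a b c : X) (ha : a ∈ klein mul e p q) (hb : b ∈ klein mul e p q)
    (hc : c ∈ klein mul e p q) : mul a (mul b c) = mul (mul a b) c := by
  obtain ⟨h1, h2, h3, h4, h5⟩ := klein_rules L p q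
  rcases ha with rfl | rfl | rfl | rfl <;> rcases hb with rfl | rfl | rfl | rfl <;>
    rcases hc with rfl | rfl | rfl | rfl <;>
    simp [L.e_mul, L.mul_e, self_mul L, h1, h2, h3, h4, h5]

include L in
theorem propagates_of_klein
    (h : ∀ x y z, mul x (mul y z) = mul (mul x y) z → ∃ p q, x ∈ klein mul e p q ∧
      y ∈ klein mul e p q ∧ z ∈ klein mul e p q) : AssocPropagates mul e := by
  intro x y z hxyz a ha b hb c hc
  obtain ⟨p, q, hx, hy, hz⟩ := h x y z hxyz
  have hS := klein_subloop L p q
  exact klein_assoc L p q a b c (ha _ hS hx hy hz) (hb _ hS hx hy hz) (hc _ hS hx hy hz)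

theorem mem1 (p q : X) : p ∈ klein mul e p q := Or.inr (Or.inl rfl)
theorem mem2 (p q : X) : q ∈ klein mul e p q := Or.inr (Or.inr (Or.inl rfl))
theorem mem0 (p q : X) : e ∈ klein mul e p q := Or.inl rfl
theorem mem3 (p q : X) : mul p q ∈ klein mul e p q := Or.inr (Or.inr (Or.inr rfl))

end Klein

/-- The free Steiner loop: associative triples are degenerate. -/
theorem free_klein (x y z : Free A) (h : fmul x (fmul y z) = fmul (fmul x y) z) :
    ∃ p q, x ∈ klein fmul none p q ∧ y ∈ klein fmul none p q ∧ z ∈ klein fmul none p q := by
  by_cases hx : x = none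
  · subst hx; exact ⟨y, z, mem0 _ _, mem1 _ _, mem2 _ _⟩
  by_cases hy : y = none
  · subst hy; exact ⟨x, z, mem1 _ _, mem0 _ _, mem2 _ _⟩
  by_cases hz : z = none
  · subst hz; exact ⟨x, y, mem1 _ _, mem2 _ _, mem0 _ _⟩
  by_cases hxy : x = y
  · subst hxy; exact ⟨x, z, mem1 _ _, mem1 _ _, mem2 _ _⟩
  by_cases hyz : y = z
  · subst hyz; exact ⟨x, y, mem1 _ _, mem2 _ _, mem2 _ _⟩
  by_cases hxz : x = z
  · subst hxz; exact ⟨x, y, mem1 _ _, mem2 _ _, mem1 _ _⟩
  by_cases hcol : fmul x y = z
  · subst hcol; exact ⟨x, y, mem1 _ _, mem2 _ _, mem3 _ _⟩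
  exfalso
  -- non-degenerate triple
  obtain ⟨a, rfl⟩ := Option.ne_none_iff_exists'.1 hx
  obtain ⟨b, rfl⟩ := Option.ne_none_iff_exists'.1 hy
  obtain ⟨c, rfl⟩ := Option.ne_none_iff_exists'.1 hz
  have hab : a ≠ b := fun e => hxy (by rw [e])
  have hbc : b ≠ c := fun e => hyz (by rw [e])
  have hac : a ≠ c := fun e => hxz (by rw [e])
  obtain ⟨u, hu⟩ := exists_third hbc
  obtain ⟨v, hv⟩ := exists_third hab
  have eu : fmul (some b) (some c) = some u := third_eq_iff.2 hu
  have ev : fmul (some a) (some b) = some v := third_eq_iff.2 hv
  have hvc : v ≠ c := by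
    rintro rfl
    exact hcol ev
  have hau : a ≠ u := by
    rintro rfl
    apply hvc
    have h1 : Line a.1 b.1 c.1 := hu.swap23.swap12
    exact Subtype.ext (line_unique v.2 c.2 hv h1)
  rw [eu, ev] at h
  obtain ⟨w, hw⟩ := exists_third hau
  have ew : fmul (some a) (some u) = some w := third_eq_iff.2 hw
  rw [ew] at h
  have hw2 : Line v.1 c.1 w.1 := third_eq_iff.1 h.symm
  have n1 := line_ne b.2 c.2 u.2 hu
  have n2 := line_ne a.2 b.2 v.2 hv
  have n3 := line_ne a.2 u.2 w.2 hw
  have n4 := line_ne v.2 c.2 w.2 hw2
  have huv : u.1 ≠ v.1 := by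
    intro e
    have e' : u = v := Subtype.ext e
    subst e'
    apply hac
    have h1 : Line b.1 u.1 c.1 := hu.swap23
    have h2 : Line b.1 u.1 a.1 := hv.swap12.swap23
    exact Subtype.ext (line_unique a.2 c.2 h2 h1)
  have hbw : b.1 ≠ w.1 := by
    intro e
    have e' : b = w := Subtype.ext e
    subst e'
    apply huv
    have h1 : Line a.1 b.1 u.1 := hw.swap23
    exact line_unique u.2 v.2 h1 hv
  exact no_pasch hu hv hw hw2 (fun e => hac (Subtype.ext e)) (fun e => hau (Subtype.ext e)) huv
    (fun e => hvc (Subtype.ext e)) n1.2.1 hbw n2.2.2.symm n2.2.1.symm n1.1 n2.1 n4.2.2.symm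
    n3.2.1.symm n1.2.2.symm n3.2.2.symm n4.2.1.symm

theorem free_propagates : AssocPropagates (fmul : Free A → Free A → Free A) none :=
  propagates_of_klein free_isSteinerLoop free_klein

/-! ### Evaluation -/

section Eval

variable {F : Type u} {mul : F → F → F} {e : F} (L : IsSteinerLoop mul e)

/-- Evaluate a tree in `F`. -/
def evalT (mul : F → F → F) : Tree F → F
  | gen a => a
  | node a b => mul (evalT mul a) (evalT mul b)

include L in
theorem evalT_nd (a b : Tree F) : evalT mul (nd a b) = mul (evalT mul a) (evalT mul b) := by
  rcases nd_eq a b with h | h <;> rw [h]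
  · rfl
  · exact L.comm _ _

/-- Evaluation on the free Steiner loop. -/
def eval (mul : F → F → F) (e : F) : Free F → F
  | none => e
  | some t => evalT mul t.1

include L in
theorem eval_mul (x y : Free F) : eval mul e (fmul x y) = mul (eval mul e x) (eval mul e y) := by
  cases x with
  | none => exact (L.e_mul _).symm
  | some a =>
    cases y with
    | none => exact (L.mul_e _).symm
    | some b =>
      change eval mul e (third a b) = mul (evalT mul a.1) (evalT mul b.1)
      cases h : third a b with
      | none =>
        have := third_eq_none h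
        subst this
        exact (self_mul L _).symm
      | some c =>
        rw [third_eq_iff] at h
        change evalT mul c.1 = _
        rcases h with h | h | h
        · rw [h, evalT_nd L]
          obtain ⟨_, _, _, h4, _⟩ := klein_rules L (evalT mul c.1) (evalT mul b.1)
          rw [L.comm (evalT mul b.1) (evalT mul c.1)]
          exact h4.symm
        · rw [h, evalT_nd L, L.steiner]
        · rw [h, evalT_nd L]

theorem eval_surjective : Function.Surjective (eval mul e : Free F → F) :=
  fun a => ⟨some ⟨gen a, trivial⟩, rfl⟩

end Eval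

end Q16.Steiner
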